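import Mathlib
import Pool.Agent.TH899.UG.ExW
import Pool.Agent.TH899.UG.BoxP

/-!
# MP_cbf366_nt: a third of the pairs of a sieve window consists of two primes

Let `H` be the set of the integers of a window `(j, j + k]` without a prime factor `≤ k`.  The
question asks whether, for the windows with the largest `|H|`, there are arbitrarily large
`x ≡ j` modulo all primes `≤ k` for which ALL the numbers `x + (a - j)`, `a ∈ H`, are prime.  We show
that for every `ε > 0` there is `h₀` such that in every window (`k` and `j` are arbitrary) with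
`|H| ≥ h₀` at least a proportion `1/3 - ε` of the pairs `a < b` of elements of `H` are such that
`x + (a - j)` and `x + (b - j)` are both prime for at least `X ^ (1 - η)` of these `x ≤ X`, for all
large `X`.  (The starting results `SieveCounts` and `SieveCounts45` give one pair.)

Proof.  Two of any four classes of linear forms are hit by primes, if the classes are large
(`Pool.Agent.TH899.UG.NW.exactW`, starting files).  So the graph of the other pairs contains no
complete 4-partite graph with large classes; by the box lemma of Erdős (`box_pow`, starting files)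
it contains few complete graphs on four vertices, and Turán's theorem for `3 s` random vertices
bounds the number of its edges.
-/

set_option autoImplicit false

namespace Pool.Agent.Results.MP_cbf366_nt.ThirdOfPairs

open Finset Filter

open Classical in
/-- two of four large classes of linear forms `P n + b` are hit by primes at the same time -/
theorem core4 : ∃ K : ℕ, 1 ≤ K ∧ ∀ P : ℕ, 1 ≤ P → ∀ η : ℝ, 0 < η → ∀ᶠ N : ℕ in atTop,
    ∀ B : Fin 4 → Fin K → ℕ, Function.Injective (fun z : Fin 4 × Fin K => B z.1 z.2) →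
      (∀ g i, 5 * B g i ≤ 6 * N) →
      (∀ p : ℕ, p.Prime → ∃ n : ℤ, ∀ g i, ¬ ((p : ℤ) ∣ P * n + (B g i : ℕ))) →
      ∃ g g' i i', g ≠ g' ∧ (N : ℝ) ^ (1 - η) ≤ (((Icc 1 N).filter (fun n : ℕ =>
        (n : ℝ) ≤ 1 / 4 * N ∧ (P * n + B g i).Prime ∧ (P * n + B g' i').Prime)).card : ℝ) := by
  obtain ⟨c, hc, hc1, H⟩ := Pool.Agent.TH899.UG.NW.exactW
  obtain ⟨K, hK, H⟩ := H (1 / 8) (1 / 4) le_rfl (by norm_num) le_rfl 4 1 (by norm_num)
    (by push_cast; linarith)
  refine ⟨K, hK, fun P hP η hη => ?_⟩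
  filter_upwards [H P η hη] with N hN B hinj hB hloc
  have hP0 : (1 : ℝ) ≤ P := by exact_mod_cast hP
  obtain ⟨S, σ, hS, hcnt⟩ := hN (fun _ _ => (P : ℤ)) (fun g i => ((B g i : ℕ) : ℤ))
    (fun _ _ => by
      show (P : ℤ) ≠ 0
      have : (1 : ℤ) ≤ P := by exact_mod_cast hP
      omega)
    (fun _ _ => by
      show |(P : ℤ)| ≤ (P : ℤ)
      rw [abs_of_nonneg (Int.natCast_nonneg _)])
    (fun g i => by
      have h1 := hB g i
      have h2 : |((B g i : ℕ) : ℤ)| = (B g i : ℕ) := abs_of_nonneg (Int.natCast_nonneg _)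
      show 5 * |((B g i : ℕ) : ℤ)| ≤ 6 * (N : ℤ)
      rw [h2]
      exact_mod_cast h1)
    (fun g i y h1 h2 => by
      have h3 : (0 : ℝ) ≤ ((B g i : ℕ) : ℝ) := Nat.cast_nonneg _
      have h4 : (0 : ℝ) ≤ (N : ℝ) := Nat.cast_nonneg _
      have h5 : (0 : ℝ) ≤ y := by linarith
      have h6 : y ≤ P * y := le_mul_of_one_le_left h5 hP0
      push_cast
      linarith)
    (by
      rintro z z' h
      apply hinj
      have h2 : ((B z.1 z.2 : ℕ) : ℤ) = ((B z'.1 z'.2 : ℕ) : ℤ) := congrArg Prod.snd h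
      show B z.1 z.2 = B z'.1 z'.2
      exact_mod_cast h2)
    (fun p hp => hloc p hp)
  obtain ⟨g, hg, g', hg', hne⟩ := one_lt_card.1 (by omega : 1 < S.card)
  refine ⟨g, g', σ g, σ g', hne, hcnt.trans ?_⟩
  rw [Nat.cast_le]
  apply card_le_card
  intro n hn
  obtain ⟨h4, h5, h6, h7⟩ := mem_filter.1 hn
  have key : ∀ k ∈ S, (P * n + B k (σ k)).Prime := by
    intro k hk
    have h8 := h7 k hk
    have h9 : ((P : ℤ) * (n : ℤ) + ((B k (σ k) : ℕ) : ℤ)).toNat = P * n + B k (σ k) := by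
      have : (P : ℤ) * (n : ℤ) + ((B k (σ k) : ℕ) : ℤ) = ((P * n + B k (σ k) : ℕ) : ℤ) := by
        push_cast; ring
      rw [this, Int.toNat_natCast]
    rw [h9] at h8
    exact h8
  exact mem_filter.2 ⟨h4, h6, key g hg, key g' hg'⟩

/-- the number of the functions with prescribed values at the places `e` -/
theorem fiber {r t : ℕ} (e : Fin t → Fin r) (he : Function.Injective e) (H : Finset ℕ)
    (Bad : Finset (Fin t → ℕ)) (hBad : Bad ⊆ Fintype.piFinset (fun _ => H)) :
    ((Fintype.piFinset (fun _ : Fin r => H)).filter (fun f => f ∘ e ∈ Bad)).card * H.card ^ t =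
      H.card ^ r * Bad.card := by
  classical
  have h1 : (Fintype.piFinset (fun _ : Fin t => H)).card = H.card ^ t := by
    rw [Fintype.card_piFinset]; simp
  have h2 : (Fintype.piFinset (fun _ : Fin r => H)).card = H.card ^ r := by
    rw [Fintype.card_piFinset]; simp
  rw [← h1, ← h2, ← card_product, ← card_product]
  have hmem : ∀ (f : Fin r → ℕ) (g : Fin t → ℕ), f ∈ Fintype.piFinset (fun _ : Fin r => H) →
      g ∈ Fintype.piFinset (fun _ : Fin t => H) →
      Function.extend e g f ∈ Fintype.piFinset (fun _ : Fin r => H) := by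
    intro f g hf hg
    rw [Fintype.mem_piFinset] at hf hg ⊢
    intro i
    by_cases hi : ∃ a, e a = i
    · obtain ⟨a, rfl⟩ := hi
      rw [he.extend_apply]
      exact hg a
    · rw [Function.extend_apply' _ _ _ hi]
      exact hf i
  have hinv : ∀ (f : Fin r → ℕ) (g : Fin t → ℕ),
      Function.extend e (f ∘ e) (Function.extend e g f) = f := by
    intro f g
    funext i
    by_cases hi : ∃ a, e a = i
    · obtain ⟨a, rfl⟩ := hi
      rw [he.extend_apply]
      rfl
    · rw [Function.extend_apply' _ _ _ hi, Function.extend_apply' _ _ _ hi]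
  have hcomp : ∀ (f : Fin r → ℕ) (g : Fin t → ℕ), (Function.extend e g f) ∘ e = g := by
    intro f g
    funext a
    exact he.extend_apply _ _ _
  refine card_nbij' (fun q => (Function.extend e q.2 q.1, q.1 ∘ e))
    (fun q => (Function.extend e q.2 q.1, q.1 ∘ e)) ?_ ?_ ?_ ?_
  · rintro ⟨f, g⟩ hq
    obtain ⟨hf, hg⟩ := mem_product.1 hq
    obtain ⟨hf1, hf2⟩ := mem_filter.1 hf
    exact mem_product.2 ⟨hmem f g hf1 hg, hf2⟩
  · rintro ⟨f, g⟩ hq
    obtain ⟨hf, hg⟩ := mem_product.1 hq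
    refine mem_product.2 ⟨mem_filter.2 ⟨hmem f g hf (hBad hg), ?_⟩, ?_⟩
    · show (Function.extend e g f) ∘ e ∈ Bad
      rw [hcomp]
      exact hg
    · show f ∘ e ∈ _
      rw [Fintype.mem_piFinset] at hf ⊢
      exact fun a => hf (e a)
  · rintro ⟨f, g⟩ _
    exact Prod.ext (hinv f g) (hcomp f g)
  · rintro ⟨f, g⟩ _
    exact Prod.ext (hinv f g) (hcomp f g)

open Classical in
/-- Turán's theorem for graphs on `3 s` vertices without a clique of size four, for the pairs
that are not edges -/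
theorem turan_pairs (s : ℕ) (R : Fin (3 * s) → Fin (3 * s) → Prop) (hsymm : ∀ a b, R a b → R b a)
    (hgood : ∀ e : Fin 4 → Fin (3 * s), Function.Injective e → ∃ g g', g ≠ g' ∧ R (e g) (e g')) :
    (3 * s * (s : ℝ) - 3 * s) ≤ ((((univ : Finset (Fin (3 * s) × Fin (3 * s))).filter
      (fun z : Fin (3 * s) × Fin (3 * s) => z.1 ≠ z.2)).filter
      (fun z : Fin (3 * s) × Fin (3 * s) => R z.1 z.2)).card : ℝ) := by
  let G : SimpleGraph (Fin (3 * s)) :=
    { Adj := fun a b => a ≠ b ∧ ¬ R a b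
      symm := ⟨fun a b h => ⟨h.1.symm, fun h2 => h.2 (hsymm _ _ h2)⟩⟩
      loopless := ⟨fun a h => h.1 rfl⟩ }
  have hG : G.CliqueFree (3 + 1) := by
    intro t ht
    have hc : t.card = 4 := ht.card_eq
    obtain ⟨g, g', hne, hR⟩ := hgood (t.orderEmbOfFin hc) (t.orderEmbOfFin hc).injective
    have h1 := ht.isClique (Finset.orderEmbOfFin_mem t hc g) (Finset.orderEmbOfFin_mem t hc g')
      (fun h => hne ((t.orderEmbOfFin hc).injective h))
    exact h1.2 hR
  have hT := hG.card_edgeFinset_le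
  simp only [Fintype.card_fin] at hT
  have h3 : (3 * s) % 3 = 0 := by omega
  rw [h3] at hT
  have h4 : G.edgeFinset.card ≤ 3 * s ^ 2 := by
    refine hT.trans ?_
    have : ((3 * s) ^ 2 - 0 ^ 2) * (3 - 1) / (2 * 3) = 3 * s ^ 2 := by
      have : ((3 * s) ^ 2 - 0 ^ 2) * (3 - 1) = (3 * s ^ 2) * (2 * 3) := by
        norm_num
        ring
      rw [this, Nat.mul_div_cancel _ (by norm_num)]
    rw [this]
    simp
  have h5 : (((univ : Finset (Fin (3 * s) × Fin (3 * s))).filter
      (fun z => z.1 ≠ z.2)).filter (fun z => ¬ R z.1 z.2)).card = 2 * G.edgeFinset.card := by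
    rw [← G.sum_degrees_eq_twice_card_edges, filter_filter]
    rw [show (univ : Finset (Fin (3 * s) × Fin (3 * s))) = univ ×ˢ univ from univ_product_univ.symm]
    rw [card_filter, sum_product]
    refine sum_congr rfl fun a _ => ?_
    rw [← card_filter, ← G.card_neighborFinset_eq_degree]
    congr 1
    ext b
    simp only [mem_filter, mem_univ, true_and, SimpleGraph.mem_neighborFinset]
    rfl
  have h6 := card_filter_add_card_filter_not
    (s := (univ : Finset (Fin (3 * s) × Fin (3 * s))).filter (fun z => z.1 ≠ z.2))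
    (fun z => R z.1 z.2)
  have h7 : (((univ : Finset (Fin (3 * s) × Fin (3 * s))).filter (fun z => z.1 ≠ z.2)).card : ℝ) =
      9 * (s : ℝ) * s - 3 * s := by
    have h8 : ((univ : Finset (Fin (3 * s) × Fin (3 * s))).filter (fun z => z.1 ≠ z.2)) =
        (univ : Finset (Fin (3 * s))).offDiag := by
      ext z
      simp
    rw [h8, offDiag_card, card_univ, Fintype.card_fin]
    have h9 : 3 * s ≤ 3 * s * (3 * s) := by nlinarith [Nat.zero_le s, Nat.le_mul_self (3 * s)]
    rw [Nat.cast_sub h9]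
    push_cast
    ring
  have h10 : ((((univ : Finset (Fin (3 * s) × Fin (3 * s))).filter
      (fun z => z.1 ≠ z.2)).filter (fun z => R z.1 z.2)).card : ℝ) +
      (((univ : Finset (Fin (3 * s) × Fin (3 * s))).filter
      (fun z => z.1 ≠ z.2)).filter (fun z => ¬ R z.1 z.2)).card = 9 * (s : ℝ) * s - 3 * s := by
    rw [← h7]
    exact_mod_cast h6
  rw [h5] at h10
  have h11 : (G.edgeFinset.card : ℝ) ≤ 3 * (s : ℝ) ^ 2 := by exact_mod_cast h4
  push_cast at h10
  nlinarith

open Classical in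
/-- few sets of four elements without a pair in `Q` force many pairs in `Q` -/
theorem dens (H : Finset ℕ) (Q : ℕ → ℕ → Prop) (hsymm : ∀ x y, Q x y → Q y x) (s : ℕ)
    (δ : ℝ) (hH : 0 < H.card)
    (hbad : (((Fintype.piFinset (fun _ : Fin 4 => H)).filter
      (fun f => ∀ g g', g ≠ g' → ¬ Q (f g) (f g'))).card : ℝ) ≤ δ * (H.card : ℝ) ^ 4) :
    (3 * s * (s : ℝ) - 3 * s) * ((1 - (3 * s : ℝ) ^ 4 * δ) * (H.card : ℝ) ^ 2) ≤
      (9 * (s : ℝ) * s - 3 * s) * ((H ×ˢ H).filter (fun z => Q z.1 z.2)).card := by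
  set r : ℕ := 3 * s with hr
  set P := Fintype.piFinset (fun _ : Fin r => H) with hP
  set Bad := (Fintype.piFinset (fun _ : Fin 4 => H)).filter
      (fun f => ∀ g g', g ≠ g' → ¬ Q (f g) (f g')) with hBad
  set h : ℝ := (H.card : ℝ) with hh
  have hh0 : 0 < h := Nat.cast_pos.2 hH
  have hPc : (P.card : ℝ) = h ^ r := by
    rw [hP, Fintype.card_piFinset]; simp [hh]
  set E := (univ : Finset (Fin 4 → Fin r)).filter Function.Injective with hE
  have hEc : (E.card : ℝ) ≤ (r : ℝ) ^ 4 := by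
    have : E.card ≤ (univ : Finset (Fin 4 → Fin r)).card := card_filter_le _ _
    rw [card_univ, Fintype.card_fun, Fintype.card_fin, Fintype.card_fin] at this
    exact_mod_cast this
  set BadP := E.biUnion (fun e => P.filter (fun f => f ∘ e ∈ Bad)) with hBadP
  have hBadPc : (BadP.card : ℝ) ≤ (r : ℝ) ^ 4 * (δ * h ^ r) := by
    have h1 : (BadP.card : ℝ) ≤ ∑ e ∈ E, ((P.filter (fun f => f ∘ e ∈ Bad)).card : ℝ) := by
      exact_mod_cast card_biUnion_le
    have h2 : ∀ e ∈ E, ((P.filter (fun f => f ∘ e ∈ Bad)).card : ℝ) ≤ δ * h ^ r := by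
      intro e he
      have h3 := fiber e (mem_filter.1 he).2 H Bad (filter_subset _ _)
      have h4 : ((P.filter (fun f => f ∘ e ∈ Bad)).card : ℝ) * h ^ 4 = h ^ r * Bad.card := by
        rw [hh]
        exact_mod_cast h3
      have h5 : h ^ r * (Bad.card : ℝ) ≤ h ^ r * (δ * h ^ 4) :=
        mul_le_mul_of_nonneg_left hbad (by positivity)
      have h6 : 0 < h ^ 4 := by positivity
      by_contra hcon
      rw [not_le] at hcon
      have h7 : δ * h ^ r * h ^ 4 < ((P.filter (fun f => f ∘ e ∈ Bad)).card : ℝ) * h ^ 4 :=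
        mul_lt_mul_of_pos_right hcon h6
      nlinarith
    have h8 := h1.trans (sum_le_card_nsmul _ _ _ h2)
    rw [nsmul_eq_mul] at h8
    have h9 : 0 ≤ δ * h ^ r := by
      have h10 : (0 : ℝ) ≤ Bad.card := Nat.cast_nonneg _
      have h11 : 0 ≤ δ * h ^ 4 := h10.trans hbad
      have h12 : 0 ≤ δ := by
        by_contra hneg
        rw [not_le] at hneg
        have : δ * h ^ 4 < 0 := mul_neg_of_neg_of_pos hneg (by positivity)
        linarith
      positivity
    exact h8.trans (mul_le_mul_of_nonneg_right hEc h9)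
  set D := (univ : Finset (Fin r × Fin r)).filter (fun z => z.1 ≠ z.2) with hD
  have hDc : (D.card : ℝ) = 9 * (s : ℝ) * s - 3 * s := by
    have h8 : D = (univ : Finset (Fin r)).offDiag := by
      ext z
      simp [hD]
    rw [h8, offDiag_card, card_univ, Fintype.card_fin]
    have h9 : r ≤ r * r := Nat.le_mul_self r
    rw [Nat.cast_sub h9, hr]
    push_cast
    ring
  -- the double count
  have hlow : ((3 * s * (s : ℝ) - 3 * s)) * (h ^ r - (r : ℝ) ^ 4 * (δ * h ^ r)) ≤
      ∑ f ∈ P, ((D.filter (fun z => Q (f z.1) (f z.2))).card : ℝ) := by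
    have hs0 : 0 ≤ (3 * s * (s : ℝ) - 3 * s) := by
      rcases Nat.eq_zero_or_pos s with h0 | h0
      · rw [h0]; simp
      · have : (1 : ℝ) ≤ s := by exact_mod_cast h0
        nlinarith
    have h1 : ∀ f ∈ P \ BadP, (3 * s * (s : ℝ) - 3 * s) ≤
        ((D.filter (fun z => Q (f z.1) (f z.2))).card : ℝ) := by
      intro f hf
      obtain ⟨hf1, hf2⟩ := mem_sdiff.1 hf
      have hgood : ∀ e : Fin 4 → Fin (3 * s), Function.Injective e →
          ∃ g g', g ≠ g' ∧ Q (f (e g)) (f (e g')) := by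
        intro e he
        by_contra hcon
        push Not at hcon
        apply hf2
        refine mem_biUnion.2 ⟨e, mem_filter.2 ⟨mem_univ _, he⟩, mem_filter.2 ⟨hf1, ?_⟩⟩
        refine mem_filter.2 ⟨?_, fun g g' hgg => hcon g g' hgg⟩
        rw [Fintype.mem_piFinset]
        intro a
        rw [hP, Fintype.mem_piFinset] at hf1
        exact hf1 (e a)
      exact turan_pairs s (fun a b => Q (f a) (f b)) (fun a b hab => hsymm _ _ hab) hgood
    have h2 : (3 * s * (s : ℝ) - 3 * s) * ((P \ BadP).card : ℝ) ≤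
        ∑ f ∈ P \ BadP, ((D.filter (fun z => Q (f z.1) (f z.2))).card : ℝ) := by
      have := card_nsmul_le_sum _ _ _ h1
      rw [nsmul_eq_mul] at this
      linarith
    have h3 : h ^ r - (r : ℝ) ^ 4 * (δ * h ^ r) ≤ ((P \ BadP).card : ℝ) := by
      have h4 : P.card ≤ (P \ BadP).card + BadP.card := by
        have := le_card_sdiff BadP P
        omega
      have h5 : (P.card : ℝ) ≤ ((P \ BadP).card : ℝ) + BadP.card := by exact_mod_cast h4
      linarith
    refine (mul_le_mul_of_nonneg_left h3 hs0).trans (h2.trans ?_)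
    exact sum_le_sum_of_subset_of_nonneg sdiff_subset (fun _ _ _ => Nat.cast_nonneg _)
  have hup : (∑ f ∈ P, ((D.filter (fun z => Q (f z.1) (f z.2))).card : ℝ)) * h ^ 2 =
      h ^ r * ((9 * (s : ℝ) * s - 3 * s) * ((H ×ˢ H).filter (fun z => Q z.1 z.2)).card) := by
    have h1 : ∑ f ∈ P, ((D.filter (fun z => Q (f z.1) (f z.2))).card : ℝ) =
        ∑ z ∈ D, ((P.filter (fun f => Q (f z.1) (f z.2))).card : ℝ) := by
      simp only [card_filter, Nat.cast_sum]
      rw [sum_comm]
    set Bd := (Fintype.piFinset (fun _ : Fin 2 => H)).filter (fun f => Q (f 0) (f 1)) with hBd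
    have hBdc : Bd.card = ((H ×ˢ H).filter (fun z => Q z.1 z.2)).card := by
      refine card_nbij' (fun f => (f 0, f 1)) (fun z => ![z.1, z.2]) ?_ ?_ ?_ ?_
      · intro f hf
        obtain ⟨hf1, hf2⟩ := mem_filter.1 hf
        rw [Fintype.mem_piFinset] at hf1
        exact mem_filter.2 ⟨mem_product.2 ⟨hf1 0, hf1 1⟩, hf2⟩
      · rintro ⟨x, y⟩ hz
        obtain ⟨hz1, hz2⟩ := mem_filter.1 hz
        obtain ⟨hx, hy⟩ := mem_product.1 hz1
        refine mem_filter.2 ⟨?_, hz2⟩
        rw [Fintype.mem_piFinset]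
        intro a
        fin_cases a
        · exact hx
        · exact hy
      · intro f _
        funext a
        fin_cases a <;> rfl
      · rintro ⟨x, y⟩ _
        rfl
    have h2 : ∀ z ∈ D, ((P.filter (fun f => Q (f z.1) (f z.2))).card : ℝ) * h ^ 2 =
        h ^ r * Bd.card := by
      rintro ⟨a, b⟩ hz
      have hne : a ≠ b := (mem_filter.1 hz).2
      have hinj : Function.Injective (![a, b] : Fin 2 → Fin r) := by
        intro x y hxy
        fin_cases x <;> fin_cases y
        · rfl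
        · exact absurd hxy hne
        · exact absurd hxy hne.symm
        · rfl
      have h3 := fiber (![a, b] : Fin 2 → Fin r) hinj H Bd (filter_subset _ _)
      have h4 : (P.filter (fun f => Q (f a) (f b))) =
          P.filter (fun f => f ∘ (![a, b] : Fin 2 → Fin r) ∈ Bd) := by
        apply filter_congr
        intro f hf
        rw [hBd, mem_filter, Fintype.mem_piFinset]
        rw [hP, Fintype.mem_piFinset] at hf
        constructor
        · intro h5
          exact ⟨fun x => hf _, h5⟩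
        · exact fun h5 => h5.2
      show ((P.filter (fun f => Q (f a) (f b))).card : ℝ) * h ^ 2 = h ^ r * Bd.card
      rw [h4, hh]
      exact_mod_cast h3
    rw [h1, sum_mul, sum_congr rfl h2, sum_const, nsmul_eq_mul, hDc, hBdc]
    ring
  have hr4 : (r : ℝ) = 3 * s := by rw [hr]; push_cast; ring
  have hhr : 0 < h ^ r := by positivity
  have hfin : h ^ r * ((3 * s * (s : ℝ) - 3 * s) * ((1 - (3 * s : ℝ) ^ 4 * δ) * h ^ 2)) ≤
      h ^ r * ((9 * (s : ℝ) * s - 3 * s) * ((H ×ˢ H).filter (fun z => Q z.1 z.2)).card) := by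
    rw [← hup]
    have h1 := mul_le_mul_of_nonneg_right hlow (by positivity : (0 : ℝ) ≤ h ^ 2)
    refine le_trans (le_of_eq ?_) h1
    rw [hr4]
    ring
  exact le_of_mul_le_mul_left hfin hhr

open Classical in
/-- `P n + x` and `P n + y` are both prime for at least `N ^ (1 - η)` of the `n ≤ N / 4` -/
def hit (P : ℕ) (η : ℝ) (N x y : ℕ) : Prop :=
  (N : ℝ) ^ (1 - η) ≤ (((Icc 1 N).filter (fun n : ℕ =>
    (n : ℝ) ≤ 1 / 4 * N ∧ (P * n + x).Prime ∧ (P * n + y).Prime)).card : ℝ)

theorem hit_symm {P : ℕ} {η : ℝ} {N x y : ℕ} (h : hit P η N x y) : hit P η N y x := by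
  unfold hit at h ⊢
  refine h.trans ?_
  rw [Nat.cast_le]
  apply card_le_card
  intro n hn
  obtain ⟨h1, h2, h3, h4⟩ := mem_filter.1 hn
  exact mem_filter.2 ⟨h1, h2, h4, h3⟩

open Classical in
theorem bad_small (δ : ℝ) (hδ : 0 < δ) (hδ1 : δ ≤ 1) : ∃ R : ℕ, ∀ P : ℕ, 1 ≤ P → ∀ η : ℝ, 0 < η →
    ∀ᶠ N : ℕ in atTop, ∀ H : Finset ℕ, R ≤ H.card → (∀ x ∈ H, 5 * x ≤ 6 * N) →
      (∀ p : ℕ, p.Prime → ∃ n : ℤ, ∀ x ∈ H, ¬ ((p : ℤ) ∣ P * n + (x : ℕ))) →
      (((Fintype.piFinset (fun _ : Fin 4 => H)).filter (fun f => ∀ g g', g ≠ g' →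
        ¬ (f g = f g' ∨ hit P η N (f g) (f g')))).card : ℝ) ≤ δ * (H.card : ℝ) ^ 4 := by
  obtain ⟨K, hK, hc⟩ := core4
  obtain ⟨C, E, hC, HB⟩ := Pool.Agent.TH899.UG.box_pow K 4
  obtain ⟨R, hR⟩ := exists_nat_ge (C / δ ^ E)
  refine ⟨R, fun P hP η hη => ?_⟩
  filter_upwards [hc P hP η hη] with N hN H hH hle hloc
  by_contra hcon
  rw [not_le] at hcon
  set Bad := (Fintype.piFinset (fun _ : Fin 4 => H)).filter (fun f => ∀ g g', g ≠ g' →
        ¬ (f g = f g' ∨ hit P η N (f g) (f g'))) with hBad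
  obtain ⟨A, hA1, hA2⟩ := HB δ hδ hδ1 ℕ (fun _ => H)
    (fun _ => hR.trans (by exact_mod_cast hH)) Bad (filter_subset _ _)
    (by
      rw [prod_const, card_univ, Fintype.card_fin]
      exact hcon.le)
  have hpair : ∀ g g' i i', g ≠ g' → ¬ (A g i = A g' i' ∨ hit P η N (A g i) (A g' i')) := by
    intro g g' i i' hne
    have h1 := (mem_filter.1 (hA2 (Function.update (fun _ => i) g' i'))).2 g g' hne
    simpa [Function.update_of_ne hne] using h1
  have hmem : ∀ g i, A g i ∈ H := by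
    intro g i
    have h1 := (mem_filter.1 (hA2 (fun _ => i))).1
    rw [Fintype.mem_piFinset] at h1
    exact h1 g
  obtain ⟨g, g', i, i', hne, hcnt⟩ := hN A
    (by
      rintro ⟨g, i⟩ ⟨g', i'⟩ h
      have h2 : A g i = A g' i' := h
      by_cases hg : g = g'
      · subst hg
        rw [hA1 g h2]
      · exact absurd (Or.inl h2) (hpair g g' i i' hg))
    (fun g i => hle _ (hmem g i))
    (by
      intro p hp
      obtain ⟨n, hn⟩ := hloc p hp
      exact ⟨n, fun g i => hn _ (hmem g i)⟩)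
  apply hpair g g' i i' hne
  right
  unfold hit
  exact hcnt

open Classical in
/-- the integers of `(j, j + k]` without a prime factor `≤ k` -/
noncomputable def surv (k j : ℕ) : Finset ℕ :=
  (Ioc j (j + k)).filter (fun n => ∀ p : ℕ, p.Prime → p ≤ k → ¬ p ∣ n)

theorem mem_surv {k j x : ℕ} : x ∈ surv k j ↔ (j < x ∧ x ≤ j + k) ∧
    ∀ p : ℕ, p.Prime → p ≤ k → ¬ p ∣ x := by
  simp only [surv, mem_filter, mem_Ioc]

/-- the `x ≤ X` with `x ≡ j` modulo all primes `p ≤ k` for which `x + (a - j)` and `x + (b - j)` are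
both prime -/
def both (k j a b : ℕ) (X : ℝ) : Set ℕ :=
  {x : ℕ | (x : ℝ) ≤ X ∧ (∀ p : ℕ, p.Prime → p ≤ k → x ≡ j [MOD p]) ∧
    (x + (a - j)).Prime ∧ (x + (b - j)).Prime}

theorem surv_local (k j : ℕ) (p : ℕ) (hp : p.Prime) :
    ∃ n : ℤ, ∀ x ∈ surv k j, ¬ ((p : ℤ) ∣ (primorial k : ℕ) * n + (x : ℕ)) := by
  set P : ℕ := primorial k with hPdef
  by_cases hpk : p ≤ k
  · refine ⟨0, fun x hx h => ?_⟩
    rw [mul_zero, zero_add] at h
    exact (mem_surv.1 hx).2 p hp hpk (by exact_mod_cast h)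
  · have hcopp : ¬ p ∣ P := by
      intro h
      rw [hPdef] at h
      unfold primorial at h
      obtain ⟨q, hq, hpq⟩ := (Prime.dvd_finsetProd_iff hp.prime _).1 h
      rw [Finset.mem_filter, Finset.mem_range] at hq
      rw [(Nat.prime_dvd_prime_iff_eq hp hq.2)] at hpq
      omega
    have hc : Nat.Coprime P p := ((Nat.Prime.coprime_iff_not_dvd hp).2 hcopp).symm
    obtain ⟨a, ha⟩ : ∃ a : ℕ, p ∣ P * a + j := by
      have h1 : IsUnit (P : ZMod p) := (ZMod.isUnit_iff_coprime P p).2 hc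
      have : NeZero p := ⟨hp.ne_zero⟩
      obtain ⟨u, hu⟩ := h1
      refine ⟨((↑(u⁻¹) : ZMod p) * (-(j : ZMod p))).val, ?_⟩
      rw [← ZMod.natCast_eq_zero_iff]
      push_cast
      rw [ZMod.natCast_zmod_val, ← mul_assoc, ← hu, Units.mul_inv, one_mul, neg_add_cancel]
    refine ⟨(a : ℤ), fun x hx h => ?_⟩
    obtain ⟨h1, h2⟩ := (mem_surv.1 hx).1
    have h3 : ((P : ℕ) : ℤ) * (a : ℤ) + (x : ℕ) = ((P * a + j : ℕ) : ℤ) + ((x - j : ℕ) : ℤ) := by
      rw [Nat.cast_sub h1.le]
      push_cast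
      ring
    rw [h3] at h
    have h4 : (p : ℤ) ∣ ((x - j : ℕ) : ℤ) :=
      (Int.dvd_add_right (by exact_mod_cast ha)).1 h
    have h5 : p ∣ x - j := by exact_mod_cast h4
    have := Nat.le_of_dvd (by omega) h5
    omega

/-- from the linear forms to the translates of the window -/
theorem transfer (k j : ℕ) (η : ℝ) (hη : 0 < η) : ∃ η' : ℝ, 0 < η' ∧ ∀ᶠ X : ℝ in atTop,
    ∀ a ∈ surv k j, ∀ b ∈ surv k j,
      hit (primorial k) η' ⌊4 * ((X - j) / primorial k)⌋₊ a b →
      X ^ (1 - η) ≤ ((both k j a b X).ncard : ℝ) := by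
  classical
  set P : ℕ := primorial k with hPdef
  have hP : 0 < P := primorial_pos k
  have hP' : (0 : ℝ) < P := by exact_mod_cast hP
  have hP1 : (1 : ℝ) ≤ P := by exact_mod_cast hP
  refine ⟨min (η / 2) (1 / 2), by positivity, ?_⟩
  set η' : ℝ := min (η / 2) (1 / 2) with hη'
  have h1 : η' ≤ η / 2 := min_le_left _ _
  have h2 : η' ≤ 1 / 2 := min_le_right _ _
  have h0 : 0 < η' := lt_min (by linarith) (by norm_num)
  have hg : ∀ᶠ X : ℝ in atTop, (P : ℝ) ≤ X ^ (η - η') :=
    (tendsto_rpow_atTop (by linarith)).eventually_ge_atTop _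
  filter_upwards [hg, eventually_ge_atTop (1 : ℝ), eventually_ge_atTop (2 * (j : ℝ) + P)]
    with X h3 h4 h5 a ha b hb hhit
  set N : ℕ := ⌊4 * ((X - j) / P)⌋₊ with hN
  have hj : (0 : ℝ) ≤ j := Nat.cast_nonneg _
  have hXj : 0 ≤ X - j := by linarith
  have hN1 : (N : ℝ) ≤ 4 * ((X - j) / P) := Nat.floor_le (by positivity)
  have hN2 : X / P ≤ (N : ℝ) := by
    have h6 : 4 * ((X - j) / P) - 1 < (N : ℝ) := Nat.sub_one_lt_floor _
    have h7 : X / P ≤ 4 * ((X - j) / P) - 1 := by
      rw [div_le_iff₀ hP']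
      have h8 : (4 * ((X - j) / P) - 1) * P = 4 * (X - j) - P := by
        field_simp
      rw [h8]
      linarith
    linarith
  have hX0 : 0 < X := by linarith
  have hlow : X ^ (1 - η) ≤ (N : ℝ) ^ (1 - η') := by
    calc X ^ (1 - η) = X ^ (1 - η' - (η - η')) := by ring_nf
      _ = X ^ (1 - η') / X ^ (η - η') := Real.rpow_sub hX0 _ _
      _ ≤ X ^ (1 - η') / P := div_le_div_of_nonneg_left (by positivity) hP' h3
      _ ≤ X ^ (1 - η') / (P : ℝ) ^ (1 - η') := by
          apply div_le_div_of_nonneg_left (by positivity) (by positivity)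
          calc (P : ℝ) ^ (1 - η') ≤ (P : ℝ) ^ (1 : ℝ) :=
                Real.rpow_le_rpow_of_exponent_le hP1 (by linarith)
            _ = P := Real.rpow_one _
      _ = (X / P) ^ (1 - η') := (Real.div_rpow hX0.le hP'.le _).symm
      _ ≤ (N : ℝ) ^ (1 - η') := Real.rpow_le_rpow (by positivity) hN2 (by linarith)
  unfold hit at hhit
  refine hlow.trans (hhit.trans ?_)
  have hfin : (both k j a b X).Finite :=
    (Set.finite_Iic ⌊X⌋₊).subset fun x hx => Nat.le_floor hx.1
  rw [Set.ncard_eq_toFinset_card _ hfin, Nat.cast_le]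
  apply Finset.card_le_card_of_injOn (fun n => P * n + j)
  · intro n hn
    obtain ⟨hn1, hn2, hn3, hn4⟩ := mem_filter.1 hn
    have ha1 := (mem_surv.1 ha).1.1
    have hb1 := (mem_surv.1 hb).1.1
    simp only [Set.Finite.coe_toFinset]
    refine ⟨?_, ?_, ?_, ?_⟩
    · have h6 : (n : ℝ) ≤ (X - j) / P := by linarith
      rw [le_div_iff₀ hP'] at h6
      push_cast
      linarith
    · intro p hp hpk
      have hdvd : p ∣ P := by
        rw [hPdef]
        unfold primorial
        exact Finset.dvd_prod_of_mem _ (Finset.mem_filter.2 ⟨Finset.mem_range.2 (by omega), hp⟩)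
      have h7 : P * n ≡ 0 [MOD p] := (Nat.modEq_zero_iff_dvd).2 (hdvd.mul_right n)
      simpa using h7.add_right j
    · have h8 : P * n + j + (a - j) = P * n + a := by omega
      show (P * n + j + (a - j)).Prime
      rw [h8]
      exact hn3
    · have h8 : P * n + j + (b - j) = P * n + b := by omega
      show (P * n + j + (b - j)).Prime
      rw [h8]
      exact hn4
  · intro n _ m _ hnm
    have h9 : P * n + j = P * m + j := hnm
    exact Nat.eq_of_mul_eq_mul_left hP (by omega)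

open Classical in
/-- **A third of the pairs.** -/
theorem result (ε : ℝ) (hε : 0 < ε) : ∃ h₀ : ℕ, ∀ k j : ℕ, h₀ ≤ (surv k j).card →
    ∀ η : ℝ, 0 < η → ∀ᶠ X : ℝ in atTop,
      (1 / 3 - ε) * ((surv k j).card.choose 2 : ℝ) ≤
        (((surv k j ×ˢ surv k j).filter (fun q => q.1 < q.2 ∧
          X ^ (1 - η) ≤ ((both k j q.1 q.2 X).ncard : ℝ))).card : ℝ) := by
  -- the parameters
  obtain ⟨s, hs⟩ := exists_nat_ge (4 / ε + 2)
  have hs2 : (2 : ℝ) ≤ s := by
    have : 0 < 4 / ε := by positivity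
    linarith
  have hsε : 4 ≤ ε * s := by
    have h1 : 4 / ε ≤ s := by linarith
    rw [div_le_iff₀ hε] at h1
    linarith
  set δ : ℝ := min 1 (ε / (2 * (3 * s : ℝ) ^ 4)) with hδdef
  have hs4 : 0 < (3 * s : ℝ) ^ 4 := by positivity
  have hδ : 0 < δ := by positivity
  have hδ1 : δ ≤ 1 := min_le_left _ _
  have hδ2 : (3 * s : ℝ) ^ 4 * δ ≤ ε / 2 := by
    have h1 : δ ≤ ε / (2 * (3 * s : ℝ) ^ 4) := min_le_right _ _
    calc (3 * s : ℝ) ^ 4 * δ ≤ (3 * s : ℝ) ^ 4 * (ε / (2 * (3 * s : ℝ) ^ 4)) :=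
          mul_le_mul_of_nonneg_left h1 hs4.le
      _ = ε / 2 := by field_simp
  obtain ⟨R, hR⟩ := bad_small δ hδ hδ1
  obtain ⟨h₁, hh₁⟩ := exists_nat_ge (4 * (1 + ε) / ε)
  refine ⟨R + h₁ + 1, fun k j hk η hη => ?_⟩
  obtain ⟨η', hη', htr⟩ := transfer k j η hη
  set P : ℕ := primorial k with hPdef
  have hP : 0 < P := primorial_pos k
  have hP' : (0 : ℝ) < P := by exact_mod_cast hP
  have hNt : Tendsto (fun X : ℝ => ⌊4 * ((X - j) / P)⌋₊) atTop atTop := by
    apply tendsto_nat_floor_atTop.comp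
    apply Tendsto.const_mul_atTop (by norm_num)
    exact (tendsto_atTop_add_const_right _ (-(j : ℝ)) tendsto_id).atTop_div_const hP'
  filter_upwards [htr, hNt.eventually (hR P hP η' hη'),
    hNt.eventually (eventually_ge_atTop (j + k))] with X hX1 hX2 hX3
  set N : ℕ := ⌊4 * ((X - j) / P)⌋₊ with hN
  set H := surv k j with hHdef
  have hbad := hX2 H (by omega) (fun x hx => by
    have h1 := (mem_surv.1 hx).1.2
    omega) (fun p hp => surv_local k j p hp)
  set q := ((H ×ˢ H).filter (fun z => z.1 = z.2 ∨ hit P η' N z.1 z.2)).card with hq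
  have hd : (3 * s * (s : ℝ) - 3 * s) * ((1 - (3 * s : ℝ) ^ 4 * δ) * (H.card : ℝ) ^ 2) ≤
      (9 * (s : ℝ) * s - 3 * s) * (q : ℝ) := by
    have h0 := dens H (fun x y => x = y ∨ hit P η' N x y)
      (fun x y h => h.elim (fun h => Or.inl h.symm) (fun h => Or.inr (hit_symm h))) s δ (by omega)
      (by convert hbad)
    rw [hq]
    convert h0
  set F := (H ×ˢ H).filter (fun q => q.1 < q.2 ∧
          X ^ (1 - η) ≤ ((both k j q.1 q.2 X).ncard : ℝ)) with hF
  -- the number of the pairs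
  have hqF : q ≤ H.card + 2 * F.card := by
    have h1 : (H ×ˢ H).filter (fun z => z.1 = z.2 ∨ hit P η' N z.1 z.2) ⊆
        (H.image (fun x => (x, x))) ∪ (F ∪ F.image Prod.swap) := by
      rintro ⟨x, y⟩ hz
      obtain ⟨hz1, hz2⟩ := mem_filter.1 hz
      obtain ⟨hx, hy⟩ := mem_product.1 hz1
      rcases lt_trichotomy x y with hlt | heq | hgt
      · refine mem_union_right _ (mem_union_left _ (mem_filter.2 ⟨hz1, hlt, ?_⟩))
        rcases hz2 with h2 | h2
        · exact absurd h2 hlt.ne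
        · exact hX1 x hx y hy h2
      · refine mem_union_left _ (mem_image.2 ⟨x, hx, ?_⟩)
        rw [heq]
      · refine mem_union_right _ (mem_union_right _ (mem_image.2 ⟨(y, x), mem_filter.2
          ⟨mem_product.2 ⟨hy, hx⟩, hgt, ?_⟩, rfl⟩))
        rcases hz2 with h2 | h2
        · exact absurd h2 hgt.ne'
        · exact hX1 y hy x hx (hit_symm h2)
    have h2 := card_le_card h1
    have h3 := card_union_le (H.image (fun x => (x, x))) (F ∪ F.image Prod.swap)
    have h4 := card_union_le F (F.image Prod.swap)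
    have h5 : (H.image (fun x => (x, x))).card ≤ H.card := card_image_le
    have h6 : (F.image Prod.swap).card ≤ F.card := card_image_le
    omega
  have hqF' : (q : ℝ) ≤ (H.card : ℝ) + 2 * F.card := by exact_mod_cast hqF
  set h : ℝ := (H.card : ℝ) with hh
  have hhbig : 4 * (1 + ε) / ε ≤ h := by
    refine hh₁.trans ?_
    rw [hh]
    exact_mod_cast (by omega : h₁ ≤ H.card)
  have hh0 : 0 < h := lt_of_lt_of_le (by positivity) hhbig
  have hhε : 4 * (1 + ε) ≤ ε * h := by
    rw [div_le_iff₀ hε] at hhbig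
    linarith
  have hch : ((H.card.choose 2 : ℕ) : ℝ) = h * (h - 1) / 2 := by
    rw [Nat.cast_choose_two]
  rw [hch]
  -- the density
  have hs1 : 0 < (s : ℝ) := by linarith
  have hd2 : ((s : ℝ) - 1) * ((1 - ε / 2) * h ^ 2) ≤ (3 * (s : ℝ) - 1) * q := by
    have h1 : (3 * s * (s : ℝ) - 3 * s) * ((1 - ε / 2) * h ^ 2) ≤
        (3 * s * (s : ℝ) - 3 * s) * ((1 - (3 * s : ℝ) ^ 4 * δ) * h ^ 2) := by
      apply mul_le_mul_of_nonneg_left _ (by nlinarith)
      apply mul_le_mul_of_nonneg_right _ (by positivity)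
      linarith
    have h2 := h1.trans hd
    have h3 : (3 * (s : ℝ)) * (((s : ℝ) - 1) * ((1 - ε / 2) * h ^ 2)) ≤
        (3 * (s : ℝ)) * ((3 * (s : ℝ) - 1) * q) := by
      calc (3 * (s : ℝ)) * (((s : ℝ) - 1) * ((1 - ε / 2) * h ^ 2))
          = (3 * s * (s : ℝ) - 3 * s) * ((1 - ε / 2) * h ^ 2) := by ring
        _ ≤ (9 * (s : ℝ) * s - 3 * s) * (q : ℝ) := h2
        _ = (3 * (s : ℝ)) * ((3 * (s : ℝ) - 1) * q) := by ring
    exact le_of_mul_le_mul_left h3 (by positivity)
  have hq2 : (1 / 3 - ε / 2) * h ^ 2 ≤ (q : ℝ) := by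
    have h1 : (3 * (s : ℝ) - 1) * ((1 / 3 - ε / 2) * h ^ 2) ≤
        ((s : ℝ) - 1) * ((1 - ε / 2) * h ^ 2) := by
      have h2 : (3 * (s : ℝ) - 1) * (1 / 3 - ε / 2) ≤ ((s : ℝ) - 1) * (1 - ε / 2) := by
        nlinarith
      have h3 := mul_le_mul_of_nonneg_right h2 (by positivity : (0 : ℝ) ≤ h ^ 2)
      linarith
    exact le_of_mul_le_mul_left (h1.trans hd2) (by linarith)
  nlinarith

end Pool.Agent.Results.MP_cbf366_nt.ThirdOfPairs
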